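import Pool.Agent.Y198.DC.Stm2
import Pool.Agent.H379R3.Reg

/-!
# Regular local rings have a regular sequence of length the dimension
-/

set_option autoImplicit false

universe u

open IsLocalRing
open scoped Pointwise

namespace Pool.Agent.Y306.DC

open RingTheory.Sequence

theorem aux (d : ℕ) : ∀ (S : Type u) [CommRing S] [IsRegularLocalRing S],
    ringKrullDim S = (d : ℕ) → ∃ rs : List S, rs.length = d ∧ (∀ r ∈ rs, r ∈ maximalIdeal S) ∧
      IsWeaklyRegular S rs := by
  induction d with
  | zero =>
    intro S _ _ _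
    exact ⟨[], rfl, by simp, IsWeaklyRegular.nil S S⟩
  | succ d ih =>
    intro S _ _ h
    have hdom : IsDomain S := Pool.Agent.H379R3.isDomain S
    set m := maximalIdeal S with hm
    have hmb : m ≠ ⊥ := by
      intro h0
      have h2 : IsField S := isField_iff_maximalIdeal_eq.2 h0
      have := ringKrullDim_eq_zero_of_isField h2
      rw [h] at this
      have h3 : d + 1 = 0 := by exact_mod_cast this
      omega
    have hsq : ¬ (m ≤ m ^ 2) := by
      intro hle
      apply hmb
      apply Submodule.eq_bot_of_le_smul_of_le_jacobson_bot m m m.fg_of_isNoetherianRing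
      · rw [smul_eq_mul, ← pow_two]; exact hle
      · exact IsLocalRing.maximalIdeal_le_jacobson _
    obtain ⟨t, htm, ht2⟩ := SetLike.not_le_iff_exists.1 hsq
    obtain ⟨hreg, hdim⟩ := Pool.Agent.H379R3.regular_quotient t htm ht2 d h
    obtain ⟨rs', hlen, hmem, hwr⟩ := ih (S ⧸ Ideal.span {t}) hdim
    have ht0 : t ≠ 0 := by
      rintro rfl
      exact ht2 (zero_mem _)
    -- lift the sequence
    set lft : S ⧸ Ideal.span {t} → S := Function.surjInv Ideal.Quotient.mk_surjective with hlft
    have hl : ∀ r, Ideal.Quotient.mk (Ideal.span {t}) (lft r) = r :=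
      Function.surjInv_eq Ideal.Quotient.mk_surjective
    have hmap : (rs'.map lft).map (algebraMap S (S ⧸ Ideal.span {t})) = rs' := by
      rw [List.map_map]
      conv_rhs => rw [← List.map_id rs']
      refine List.map_congr_left fun r _ => ?_
      exact hl r
    have hwr2 : IsWeaklyRegular (S ⧸ Ideal.span {t}) (rs'.map lft) := by
      rw [← isWeaklyRegular_map_algebraMap_iff (S ⧸ Ideal.span {t}) (S ⧸ Ideal.span {t}), hmap]
      exact hwr
    have heq : (t • (⊤ : Submodule S S)) = Ideal.span {t} := by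
      ext x
      rw [Submodule.mem_smul_pointwise_iff_exists, Ideal.mem_span_singleton']
      constructor
      · rintro ⟨y, -, rfl⟩
        exact ⟨y, by rw [smul_eq_mul, mul_comm]⟩
      · rintro ⟨y, rfl⟩
        exact ⟨y, Submodule.mem_top, by rw [smul_eq_mul, mul_comm]⟩
    have e : QuotSMulTop t S ≃ₗ[S] (S ⧸ Ideal.span {t}) := Submodule.quotEquivOfEq _ _ heq
    refine ⟨t :: rs'.map lft, by rw [List.length_cons, List.length_map, hlen], ?_, ?_⟩
    · intro r hr
      rcases List.mem_cons.1 hr with rfl | hr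
      · exact htm
      · obtain ⟨r', hr', rfl⟩ := List.mem_map.1 hr
        refine (mem_maximalIdeal _).2 fun hu => ?_
        have h5 := hu.map (Ideal.Quotient.mk (Ideal.span {t}))
        rw [hl] at h5
        exact (mem_maximalIdeal _).1 (hmem r' hr') h5
    · refine (isWeaklyRegular_cons_iff S t _).2 ⟨?_, ?_⟩
      · intro a b hab
        exact mul_left_cancel₀ ht0 hab
      · exact (e.isWeaklyRegular_congr _).2 hwr2

theorem rs (S : Type u) [CommRing S] [IsRegularLocalRing S] :
    ∃ rs : List S, ((rs.length : ℕ) : WithBot ℕ∞) = ringKrullDim S ∧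
      (∀ r ∈ rs, r ∈ maximalIdeal S) ∧ IsRegular S rs := by
  obtain ⟨d, hd⟩ := Pool.Agent.H379R3.exists_dim_eq (B := S)
  obtain ⟨rs, h1, h2, h3⟩ := aux d S hd
  refine ⟨rs, by rw [h1, hd], h2, ?_⟩
  exact (IsLocalRing.isRegular_iff_isWeaklyRegular_of_subset_maximalIdeal (M := S) h2).2 h3

theorem t : Pool.Agent.Y198.DC.S_RS.{u} := fun S _ _ => rs S

end Pool.Agent.Y306.DC
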